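import Pool.Agent.Y507.LS.Stm

/-! # A series over the integers (S_SER) -/

set_option autoImplicit false

open MeasureTheory Set Filter
open scoped ENNReal Topology

namespace Pool.Agent.Y317.LS

open Pool.Agent.Y507.LS

/-- geometric series of nonnegative reals in `ENNReal` -/
lemma geo_le {f : ℕ → ℝ} {D r : ℝ} (hr0 : 0 ≤ r) (hr1 : r < 1) (hD : 0 ≤ D)
    (hf : ∀ n, f n ≤ D * r ^ n) :
    ∑' n : ℕ, ENNReal.ofReal (f n) ≤ ENNReal.ofReal (D * (1 - r)⁻¹) := by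
  have h1 : ∑' n : ℕ, ENNReal.ofReal (f n) ≤ ∑' n : ℕ, ENNReal.ofReal (D * r ^ n) :=
    ENNReal.tsum_le_tsum fun n => ENNReal.ofReal_le_ofReal (hf n)
  have h2 : Summable fun n : ℕ => D * r ^ n := (summable_geometric_of_lt_one hr0 hr1).mul_left D
  rw [← ENNReal.ofReal_tsum_of_nonneg (fun n => mul_nonneg hD (pow_nonneg hr0 n)) h2,
    tsum_mul_left, tsum_geometric_of_lt_one hr0 hr1] at h1
  exact h1

theorem thm : S_SER := by
  intro p c R hp hc hR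
  have hp0 : 0 < p := by linarith
  set A : ℝ := R ^ (1 / p) with hA
  have hA0 : 0 < A := Real.rpow_pos_of_pos hR _
  have hAc : 0 < A ^ c := Real.rpow_pos_of_pos hA0 _
  set ρ : ℝ := (2 : ℝ) ^ (-c) with hρ
  have hρ0 : 0 < ρ := Real.rpow_pos_of_pos two_pos _
  have hρ1 : ρ < 1 := Real.rpow_lt_one_of_one_lt_of_neg one_lt_two (by linarith)
  refine ⟨A ^ c * ((1 - ρ)⁻¹ + 2), ?_, ?_⟩
  · have : 0 < (1 - ρ)⁻¹ := inv_pos.2 (by linarith)
    positivity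
  intro P E hE hP hPE
  set a : ℤ → ℝ := fun k => P k ^ (1 / p) with ha
  have ha0 : ∀ k, 0 ≤ a k := fun k => Real.rpow_nonneg (hP k).1 _
  have haA : ∀ k, a k ≤ A := fun k =>
    Real.rpow_le_rpow (hP k).1 (hP k).2 (by positivity)
  have hterm : ∀ k, (2 : ℝ) ^ k * P k ^ ((1 + c) / p) = (2 : ℝ) ^ k * a k * a k ^ c := by
    intro k
    have h1 : P k ^ ((1 + c) / p) = a k ^ (1 + c) := by
      rw [ha]
      simp only
      rw [← Real.rpow_mul (hP k).1]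
      congr 1
      field_simp
    rw [h1, mul_assoc]
    congr 1
    rcases (ha0 k).eq_or_lt with h | h
    · rw [← h, Real.zero_rpow (by linarith), zero_mul]
    · rw [Real.rpow_add h, Real.rpow_one]
  have h2k : ∀ k : ℤ, (0 : ℝ) < (2 : ℝ) ^ k := fun k => zpow_pos two_pos k
  rcases hE.eq_or_lt with h0 | hE0
  · have h1 : ∀ k : ℤ, ENNReal.ofReal ((2 : ℝ) ^ k * P k ^ ((1 + c) / p)) = 0 := by
      intro k
      rw [ENNReal.ofReal_eq_zero, hterm]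
      have h2 := hPE k
      rw [← h0] at h2
      exact mul_nonpos_of_nonpos_of_nonneg h2 (Real.rpow_nonneg (ha0 k) _)
    simp only [h1, tsum_zero]
    exact zero_le
  set B : ℝ := E / A with hB
  have hB0 : 0 < B := div_pos hE0 hA0
  obtain ⟨k0, hk1, hk2⟩ := exists_mem_Ico_zpow hB0 (one_lt_two : (1 : ℝ) < 2)
  have hEA : E = B * A := by
    rw [hB]
    field_simp
  -- large indices
  have hlarge : ∀ n : ℕ, (2 : ℝ) ^ ((n : ℤ) + (k0 + 1)) * P ((n : ℤ) + (k0 + 1)) ^ ((1 + c) / p) ≤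
      E * A ^ c * ρ ^ n := by
    intro n
    rw [hterm]
    have h1 := hPE ((n : ℤ) + (k0 + 1))
    have h3 : (2 : ℝ) ^ ((n : ℤ) + (k0 + 1)) = 2 ^ n * 2 ^ (k0 + 1) := by
      rw [zpow_add₀ two_ne_zero, zpow_natCast]
    have h4 : a ((n : ℤ) + (k0 + 1)) ≤ A * (2 ^ n)⁻¹ := by
      have h5 : (2 : ℝ) ^ n * 2 ^ (k0 + 1) * a ((n : ℤ) + (k0 + 1)) ≤ B * A := by
        rw [← h3, ← hEA]
        exact h1
      have h6 : (2 : ℝ) ^ n * B * a ((n : ℤ) + (k0 + 1)) ≤ B * A := by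
        refine le_trans ?_ h5
        have : (2 : ℝ) ^ n * B ≤ 2 ^ n * 2 ^ (k0 + 1) :=
          mul_le_mul_of_nonneg_left hk2.le (by positivity)
        exact mul_le_mul_of_nonneg_right this (ha0 _)
      rw [← div_eq_mul_inv, le_div_iff₀ (by positivity)]
      have h7 : B * (a ((n : ℤ) + (k0 + 1)) * 2 ^ n) ≤ B * A := by linarith
      exact le_of_mul_le_mul_left h7 hB0
    have h8 : a ((n : ℤ) + (k0 + 1)) ^ c ≤ A ^ c * ρ ^ n := by
      refine (Real.rpow_le_rpow (ha0 _) h4 hc.le).trans ?_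
      rw [Real.mul_rpow hA0.le (by positivity)]
      have h9 : (((2 : ℝ) ^ n)⁻¹) ^ c = ρ ^ n := by
        rw [hρ, Real.rpow_neg two_pos.le, Real.inv_rpow (by positivity), inv_pow,
          ← Real.rpow_natCast, ← Real.rpow_mul two_pos.le, ← Real.rpow_natCast,
          ← Real.rpow_mul two_pos.le, mul_comm]
      rw [h9]
    calc (2 : ℝ) ^ ((n : ℤ) + (k0 + 1)) * a ((n : ℤ) + (k0 + 1)) * a ((n : ℤ) + (k0 + 1)) ^ c
        ≤ E * (A ^ c * ρ ^ n) :=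
          mul_le_mul h1 h8 (Real.rpow_nonneg (ha0 _) _) hE0.le
      _ = E * A ^ c * ρ ^ n := by ring
  -- small indices
  have hsmall : ∀ n : ℕ, (2 : ℝ) ^ (-((n : ℤ) + 1) + (k0 + 1)) *
      P (-((n : ℤ) + 1) + (k0 + 1)) ^ ((1 + c) / p) ≤ E * A ^ c * (1 / 2) ^ n := by
    intro n
    rw [hterm]
    set k : ℤ := -((n : ℤ) + 1) + (k0 + 1) with hk
    have h3 : (2 : ℝ) ^ k = 2 ^ k0 * (1 / 2) ^ n := by
      have : k = k0 - n := by rw [hk]; ring
      rw [this, zpow_sub₀ two_ne_zero, zpow_natCast, one_div, inv_pow, div_eq_mul_inv]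
    have h4 : (2 : ℝ) ^ k * a k ≤ E * (1 / 2) ^ n := by
      rw [h3, hEA]
      have h5 : (2 : ℝ) ^ k0 * a k ≤ B * A := mul_le_mul hk1 (haA k) (ha0 k) hB0.le
      have h6 := mul_le_mul_of_nonneg_right h5 (by positivity : (0 : ℝ) ≤ (1 / 2) ^ n)
      linarith
    have h8 : a k ^ c ≤ A ^ c := Real.rpow_le_rpow (ha0 _) (haA k) hc.le
    calc (2 : ℝ) ^ k * a k * a k ^ c ≤ E * (1 / 2) ^ n * A ^ c :=
          mul_le_mul h4 h8 (Real.rpow_nonneg (ha0 _) _) (by positivity)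
      _ = E * A ^ c * (1 / 2) ^ n := by ring
  have hD : 0 ≤ E * A ^ c := by positivity
  have e1 := geo_le hρ0.le hρ1 hD hlarge
  have e2 := geo_le (by norm_num) (by norm_num) hD hsmall
  obtain ⟨F, hF⟩ : ∃ F : ℤ → ℝ≥0∞, F = fun k =>
    ENNReal.ofReal ((2 : ℝ) ^ k * P k ^ ((1 + c) / p)) := ⟨_, rfl⟩
  have e3 : ∑' k : ℤ, F k = ∑' n : ℕ, F ((n : ℤ) + (k0 + 1)) +
      ∑' n : ℕ, F (-((n : ℤ) + 1) + (k0 + 1)) := by
    rw [← (Equiv.addRight (k0 + 1)).tsum_eq F]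
    exact tsum_of_nat_of_neg_add_one (f := fun k => F ((Equiv.addRight (k0 + 1)) k))
      ENNReal.summable ENNReal.summable
  have e4 : ∑' k : ℤ, ENNReal.ofReal ((2 : ℝ) ^ k * P k ^ ((1 + c) / p)) = ∑' k : ℤ, F k := by
    rw [hF]
  rw [e4, e3, hF]
  refine (add_le_add e1 e2).trans ?_
  have h1 : 0 < (1 - ρ)⁻¹ := inv_pos.2 (by linarith)
  rw [← ENNReal.ofReal_add (by positivity) (by positivity)]
  apply ENNReal.ofReal_le_ofReal
  have h2 : ((1 : ℝ) - 1 / 2)⁻¹ = 2 := by norm_num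
  rw [h2]
  apply le_of_eq
  ring

end Pool.Agent.Y317.LS
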